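import Pool.Agent.V5helper49.NR.Res

/-!
# Runs of consecutive primes along narrow progressions: assembly
-/

set_option autoImplicit false

namespace Pool.Agent.V5helper49.NR

open Finset Filter Topology

open Classical in
/-- the statement of `Pool.Agent.Y879.NP.sets` -/
def Sets : Prop := ∃ (c : ℝ) (n0 : ℕ), 0 < c ∧ ∀ (S : Finset ℕ) (y : ℕ), n0 ≤ S.card → S ⊆ range y →
    ∀ a : ℕ → ℕ, (∀ p : ℕ, p.Prime → p ≤ y → ∀ s ∈ S, ¬ p ∣ a p + s) →
    ∃ δ κ : ℝ, 0 < δ ∧ 0 < κ ∧ ∀ᶠ X : ℝ in atTop,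
      κ * X / Real.log X ^ S.card ≤ (((Icc 1 ⌊3 * X⌋₊).filter (fun m : ℕ => X < m ∧
        (∀ p : ℕ, p.Prime → p ≤ y → m ≡ a p [MOD p]) ∧
        (∀ s ∈ S, ∀ p : ℕ, p.Prime → p ∣ m + s → X ^ δ < p) ∧
        c * Real.log S.card ≤ ((S.filter (fun s => (m + s).Prime)).card : ℝ))).card : ℝ)

/-- the statement of `Pool.Agent.Y879.NP.narrow` -/
def Nar : Prop := ∀ (S : Finset ℕ) (l : ℕ) (δ ε : ℝ), 0 < δ → 0 < ε → ∃ (C : ℕ) (x₀ : ℝ),
    ∀ x : ℝ, x₀ ≤ x → ∀ A : Finset ℕ, (∀ m ∈ A, x < m ∧ (m : ℝ) ≤ 3 * x) →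
    (∀ m ∈ A, ∀ s ∈ S, ∀ p : ℕ, p.Prime → p ∣ m + s → x ^ δ < p) →
    ε * x / Real.log x ^ S.card ≤ A.card →
    ∃ m d : ℕ, 1 ≤ d ∧ (d : ℝ) ≤ Real.log x ^ C ∧ ∀ j < l, m + j * d ∈ A

lemma sq_dvd {q : ℕ} (hq : Squarefree q) {x : ℤ} (h : ∀ p : ℕ, p.Prime → p ∣ q → (p : ℤ) ∣ x) :
    (q : ℤ) ∣ x := by
  rw [Int.natCast_dvd]
  rw [← Nat.prod_primeFactors_of_squarefree hq]
  apply Finset.prod_primes_dvd
  · intro p hp
    exact (Nat.prime_of_mem_primeFactors hp).prime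
  · intro p hp
    exact Int.natCast_dvd.1 (h p (Nat.prime_of_mem_primeFactors hp) (Nat.dvd_of_mem_primeFactors hp))

lemma log_sqrt {n N : ℕ} (h2 : 2 ≤ N) (h : n < (N + 1) * (N + 1)) : Real.log n ≤ 4 * Real.log N := by
  have hN : (0 : ℝ) < N := by
    have : 0 < N := by omega
    exact_mod_cast this
  rcases Nat.eq_zero_or_pos n with rfl | hn
  · simp only [Nat.cast_zero, Real.log_zero]
    have : 0 ≤ Real.log (N : ℝ) := Real.log_natCast_nonneg N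
    linarith
  · have h1 : n ≤ N ^ 4 := by
      have h3 : N + 1 ≤ N ^ 2 := by nlinarith
      have h4 : (N + 1) * (N + 1) ≤ N ^ 2 * N ^ 2 := Nat.mul_le_mul h3 h3
      have h5 : N ^ 2 * N ^ 2 = N ^ 4 := by ring
      omega
    have h2' : (n : ℝ) ≤ (N : ℝ) ^ 4 := by exact_mod_cast h1
    have hn0 : (0 : ℝ) < n := by exact_mod_cast hn
    have h6 := Real.log_le_log hn0 h2'
    rw [Real.log_pow] at h6
    exact_mod_cast h6

lemma log_small (n : ℕ) (c K : ℝ) (hc : 0 < c) : ∀ᶠ X : ℝ in atTop, 1 ≤ Real.log X ∧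
    K ≤ c * X / Real.log X ^ n := by
  have h1 : (fun x : ℝ => Real.log x ^ n) =o[atTop] (id : ℝ → ℝ) := Real.isLittleO_pow_log_id_atTop
  have h2 := h1.bound (c := c / (|K| + 1)) (by positivity)
  filter_upwards [h2, eventually_ge_atTop (Real.exp 1)] with X hX hX1
  have hX0 : 0 < X := (Real.exp_pos 1).trans_le hX1
  have hlog : 1 ≤ Real.log X := by
    rw [Real.le_log_iff_exp_le hX0]
    exact hX1
  refine ⟨hlog, ?_⟩
  have hL : 0 < Real.log X ^ n := by positivity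
  rw [Real.norm_of_nonneg hL.le, id, Real.norm_of_nonneg hX0.le] at hX
  rw [le_div_iff₀ hL]
  have hK : K ≤ |K| + 1 := (le_abs_self K).trans (by linarith)
  calc K * Real.log X ^ n ≤ (|K| + 1) * Real.log X ^ n := mul_le_mul_of_nonneg_right hK hL.le
    _ ≤ (|K| + 1) * (c / (|K| + 1) * X) := mul_le_mul_of_nonneg_left hX (by positivity)
    _ = c * X := by field_simp

/-- what is claimed for one `X` and one colouring -/
def Claim (c κ : ℝ) (C : ℕ) (S : Finset ℕ) (R l r q a : ℕ) (X : ℝ) (χ : ℕ → Fin (r + 1)) : Prop :=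
  ∃ Q ⊆ S, c * Real.log S.card ≤ Q.card ∧ ∃ (γ : ℕ → Fin (r + 1)) (F : Finset (ℕ × ℕ)),
    κ * X / Real.log X ^ S.card ≤ F.card ∧
    (∀ u ∈ F, ∀ v ∈ F, u ≠ v → Disjoint (prog l u) (prog l v)) ∧
    ∀ u ∈ F, 1 ≤ u.2 ∧ (u.2 : ℝ) ≤ Real.log X ^ C ∧ ∀ m ∈ prog l u, X < m ∧ (m : ℝ) ≤ 3 * X ∧
      m ≡ a [MOD q] ∧ Exactly R (S.sup id) Q m ∧ ∀ s ∈ Q, χ (m + s) = γ s

/-- the last step: a set with the pattern contains many disjoint progressions -/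
lemma last {S T : Finset ℕ} (l : ℕ) (hl : 1 ≤ l) (δ κ : ℝ) (hκ : 0 < κ) (hδ : 0 < δ)
    (hN : Nar) (M : ℕ) (hM : 1 ≤ M) (hTS : T.card ≤ S.card) : ∃ C : ℕ, ∀ᶠ X : ℝ in atTop,
    ∀ A : Finset ℕ, (∀ m ∈ A, X < m ∧ (m : ℝ) ≤ 3 * X) →
      (∀ m ∈ A, ∀ s ∈ T, ∀ p : ℕ, p.Prime → p ∣ m + s → X ^ δ < p) →
      κ * X / Real.log X ^ T.card ≤ M * (A.card : ℝ) →
      ∃ F : Finset (ℕ × ℕ), κ / (4 * M * l) * X / Real.log X ^ S.card ≤ F.card ∧
        (∀ u ∈ F, ∀ v ∈ F, u ≠ v → Disjoint (prog l u) (prog l v)) ∧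
        ∀ u ∈ F, 1 ≤ u.2 ∧ (u.2 : ℝ) ≤ Real.log X ^ C ∧ ∀ j < l, u.1 + j * u.2 ∈ A := by
  have hM0 : (0 : ℝ) < M := by exact_mod_cast hM
  have hl0 : (0 : ℝ) < l := by exact_mod_cast hl
  obtain ⟨C, x₀, hC⟩ := hN T l δ (κ / (2 * M)) hδ (by positivity)
  refine ⟨C, ?_⟩
  filter_upwards [eventually_ge_atTop x₀, log_small T.card (κ / (4 * M)) l (by positivity)] with X hX hX2
  intro A hA1 hA2 hA3
  obtain ⟨hlog, hbig⟩ := hX2
  obtain ⟨Y, hY⟩ : ∃ Y : ℝ, Y = X / Real.log X ^ T.card := ⟨_, rfl⟩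
  have hL : 0 < Real.log X ^ T.card := by positivity
  have hX0 : 0 < X := by
    by_contra h
    push Not at h
    have h1 : κ / (4 * M) * X / Real.log X ^ T.card ≤ 0 := by
      apply div_nonpos_of_nonpos_of_nonneg _ hL.le
      exact mul_nonpos_of_nonneg_of_nonpos (by positivity) h
    linarith
  have hY0 : 0 < Y := by rw [hY]; positivity
  have e1 : κ / (4 * M) * X / Real.log X ^ T.card = κ / (4 * M) * Y := by rw [hY]; ring
  have e2 : κ * X / Real.log X ^ T.card = κ * Y := by rw [hY]; ring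
  have e3 : κ / (2 * M) * X / Real.log X ^ T.card = κ / (2 * M) * Y := by rw [hY]; ring
  rw [e1] at hbig
  rw [e2] at hA3
  obtain ⟨N, hNdef⟩ : ∃ N : ℕ, N = ⌈κ / (4 * M * l) * Y⌉₊ := ⟨_, rfl⟩
  have hN1 : κ / (4 * M * l) * Y ≤ N := by rw [hNdef]; exact Nat.le_ceil _
  have hN2 : (N : ℝ) < κ / (4 * M * l) * Y + 1 := by
    rw [hNdef]
    exact Nat.ceil_lt_add_one (by positivity)
  have hNl : (N : ℝ) * l ≤ κ / (2 * M) * Y := by
    have h1 : (N : ℝ) * l ≤ (κ / (4 * M * l) * Y + 1) * l := mul_le_mul_of_nonneg_right hN2.le hl0.le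
    have h2 : (κ / (4 * M * l) * Y + 1) * l = κ / (4 * M) * Y + l := by
      field_simp
    have h3 : κ / (2 * M) * Y = κ / (4 * M) * Y + κ / (4 * M) * Y := by
      field_simp
      ring
    rw [h3]
    linarith
  have hAc : κ / (2 * M) * Y + N * l ≤ (A.card : ℝ) := by
    have h1 : κ / M * Y ≤ A.card := by
      have h2 : κ * Y / M ≤ A.card := by
        rw [div_le_iff₀ hM0]
        linarith
      calc κ / M * Y = κ * Y / M := by ring
        _ ≤ _ := h2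
    have h3 : κ / M * Y = κ / (2 * M) * Y + κ / (2 * M) * Y := by
      field_simp
      ring
    linarith
  obtain ⟨F, hF1, hF2, hF3⟩ := greedy hl (Real.log X ^ C) (κ / (2 * M) * Y) A (fun B hB hBc =>
    hC X hX B (fun m hm => hA1 m (hB hm)) (fun m hm => hA2 m (hB hm)) (by rw [e3]; exact hBc)) N hAc
  refine ⟨F, ?_, hF2, hF3⟩
  rw [hF1]
  refine le_trans ?_ hN1
  have h1 : Real.log X ^ T.card ≤ Real.log X ^ S.card := pow_le_pow_right₀ hlog hTS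
  calc κ / (4 * M * l) * X / Real.log X ^ S.card ≤ κ / (4 * M * l) * X / Real.log X ^ T.card :=
        div_le_div_of_nonneg_left (by positivity) hL h1
    _ = κ / (4 * M * l) * Y := by rw [hY]; ring

open Classical in
/-- **Runs of consecutive primes along narrow progressions.** -/
theorem main0 (hS : Sets) (hN : Nar) : ∃ (c : ℝ) (n₀ : ℕ), 0 < c ∧ ∀ S : Finset ℕ, n₀ ≤ S.card →
    ∀ R l r q a : ℕ, 1 ≤ l → Squarefree q → (∀ s ∈ S, (a + s).Coprime q) →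
    ∃ (C : ℕ) (κ : ℝ), 0 < κ ∧ ∀ᶠ X : ℝ in atTop, ∀ χ : ℕ → Fin (r + 1), Claim c κ C S R l r q a X χ := by
  obtain ⟨c, n0, hc, hsets⟩ := hS
  refine ⟨c / 4, (n0 + 2) * (n0 + 2), by positivity, ?_⟩
  intro S hSn R l r q a hl hq hqa
  obtain ⟨N, hNdef⟩ : ∃ N, N = Nat.sqrt S.card := ⟨_, rfl⟩
  have hN1 : N * N ≤ S.card := by rw [hNdef]; exact Nat.sqrt_le _
  have hN2 : S.card < (N + 1) * (N + 1) := by rw [hNdef]; exact Nat.lt_succ_sqrt _
  have hNn : n0 + 2 ≤ N := by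
    rw [hNdef]
    exact Nat.le_sqrt.2 hSn
  have hq0 : 0 < q := Nat.pos_of_ne_zero hq.ne_zero
  obtain ⟨T, y, b, hTS, hTN, hTy, hb1, hb2, hb3⟩ := residues S R q a N hq0 hqa (by omega) hN1
  obtain ⟨D, hD⟩ : ∃ D, D = S.sup id := ⟨_, rfl⟩
  rw [← hD] at hb3
  have hTD : ∀ s ∈ T, s ≤ D := by
    intro s hs
    rw [hD]
    exact Finset.le_sup (f := id) (hTS hs)
  have hTc : T.card ≤ S.card := card_le_card hTS
  obtain ⟨δ, κ, hδ, hκ, hev⟩ := hsets T y (by omega) hTy b hb1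
  -- the codomain of the patterns
  obtain ⟨t, ht⟩ : ∃ t : Finset (Finset ℕ × ((x : {x // x ∈ T}) → Fin (r + 1))), t = T.powerset ×ˢ univ :=
    ⟨_, rfl⟩
  have htne : t.Nonempty := by
    rw [ht]
    exact ⟨(∅, fun _ => 0), mem_product.2 ⟨empty_mem_powerset _, mem_univ _⟩⟩
  obtain ⟨M, hM⟩ : ∃ M, M = t.card := ⟨_, rfl⟩
  have hM1 : 1 ≤ M := by rw [hM]; exact Finset.card_pos.2 htne
  have hM0 : (0 : ℝ) < M := by exact_mod_cast hM1
  have hl0 : (0 : ℝ) < l := by exact_mod_cast hl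
  obtain ⟨C, hC⟩ := last (S := S) (T := T) l hl δ κ hκ hδ hN M hM1 hTc
  refine ⟨C, κ / (4 * M * l), by positivity, ?_⟩
  filter_upwards [hev, hC, eventually_ge_atTop ((y : ℝ) + R), eventually_gt_atTop 1] with X hX1 hX2 hX3 hX4
  intro χ
  obtain ⟨A, hA⟩ : ∃ A : Finset ℕ, A = (Icc 1 ⌊3 * X⌋₊).filter (fun m : ℕ => X < m ∧
        (∀ p : ℕ, p.Prime → p ≤ y → m ≡ b p [MOD p]) ∧
        (∀ s ∈ T, ∀ p : ℕ, p.Prime → p ∣ m + s → X ^ δ < p) ∧
        c * Real.log T.card ≤ ((T.filter (fun s => (m + s).Prime)).card : ℝ)) := ⟨_, rfl⟩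
  rw [← hA] at hX1
  have hAm : ∀ m ∈ A, m ≤ ⌊3 * X⌋₊ ∧ X < m ∧
        (∀ p : ℕ, p.Prime → p ≤ y → m ≡ b p [MOD p]) ∧
        (∀ s ∈ T, ∀ p : ℕ, p.Prime → p ∣ m + s → X ^ δ < p) ∧
        c * Real.log T.card ≤ ((T.filter (fun s => (m + s).Prime)).card : ℝ) := by
    intro m hm
    rw [hA, mem_filter, mem_Icc] at hm
    exact ⟨hm.1.2, hm.2⟩
  have hX0 : 0 ≤ X := by
    have h1 : (0 : ℝ) ≤ y := Nat.cast_nonneg _
    have h2 : (0 : ℝ) ≤ R := Nat.cast_nonneg _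
    linarith
  obtain ⟨f, hf⟩ : ∃ f : ℕ → Finset ℕ × ((x : {x // x ∈ T}) → Fin (r + 1)),
      f = fun m => (T.filter (fun s => (m + s).Prime), fun s : {x // x ∈ T} => χ (m + (s : ℕ))) := ⟨_, rfl⟩
  have hft : ∀ m ∈ A, f m ∈ t := by
    intro m _
    rw [hf, ht]
    exact mem_product.2 ⟨mem_powerset.2 (filter_subset _ _), mem_univ _⟩
  obtain ⟨⟨Q, g⟩, hQg, hfib⟩ := Finset.exists_le_card_fiber_of_nsmul_le_card_of_maps_to
    (b := (A.card : ℝ) / M) hft htne (by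
      rw [← hM, nsmul_eq_mul, mul_div_cancel₀ _ hM0.ne'])
  obtain ⟨B, hB⟩ : ∃ B : Finset ℕ, B = A.filter (fun m => f m = (Q, g)) := ⟨_, rfl⟩
  have hBm : ∀ m ∈ B, m ∈ A ∧ T.filter (fun s => (m + s).Prime) = Q ∧
      ∀ s : {x // x ∈ T}, χ (m + s) = g s := by
    intro m hm
    rw [hB, mem_filter, hf] at hm
    obtain ⟨h1, h2⟩ := hm
    have h3 := congrArg Prod.fst h2
    have h4 := congrArg Prod.snd h2
    exact ⟨h1, h3, fun s => congrFun h4 s⟩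
  have hBc : κ * X / Real.log X ^ T.card ≤ M * (B.card : ℝ) := by
    have h1 : (A.card : ℝ) / M ≤ B.card := by
      rw [hB]
      exact hfib
    rw [div_le_iff₀ hM0] at h1
    linarith
  obtain ⟨F, hF1, hF2, hF3⟩ := hX2 B
    (fun m hm => by
      obtain ⟨h1, h2, -⟩ := hAm m (hBm m hm).1
      exact ⟨h2, (Nat.le_floor_iff (by positivity)).1 h1⟩)
    (fun m hm => (hAm m (hBm m hm).1).2.2.2.1) hBc
  by_cases hBe : B = ∅
  · exfalso
    rw [hBe, card_empty, Nat.cast_zero, mul_zero] at hBc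
    have hlog : 0 < Real.log X := Real.log_pos hX4
    have hX00 : 0 < X := by linarith
    have : 0 < κ * X / Real.log X ^ T.card := by positivity
    linarith
  · obtain ⟨m0, hm0⟩ := Finset.nonempty_iff_ne_empty.2 hBe
    have hQT : Q ⊆ T := by
      rw [← (hBm m0 hm0).2.1]
      exact filter_subset _ _
    refine ⟨Q, hQT.trans hTS, ?_, fun s => if h : s ∈ T then g ⟨s, h⟩ else 0, F, hF1, hF2, ?_⟩
    · have h1 := (hAm m0 (hBm m0 hm0).1).2.2.2.2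
      rw [(hBm m0 hm0).2.1, hTN] at h1
      have h2 := log_sqrt (by omega : 2 ≤ N) hN2
      refine le_trans ?_ h1
      have h3 := mul_le_mul_of_nonneg_left h2 hc.le
      linarith
    · intro u hu
      obtain ⟨h1, h2, h3⟩ := hF3 u hu
      refine ⟨h1, h2, fun m hm => ?_⟩
      obtain ⟨j, hj, rfl⟩ := mem_prog.1 hm
      have h4 := h3 j hj
      obtain ⟨h5, h6, h7⟩ := hBm _ h4
      obtain ⟨h8, h9, h10, -, -⟩ := hAm _ h5
      refine ⟨h9, (Nat.le_floor_iff (by positivity)).1 h8, ?_, ?_, ?_⟩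
      · have h11 : (q : ℤ) ∣ ((a : ℕ) : ℤ) - ((u.1 + j * u.2 : ℕ) : ℤ) := by
          apply sq_dvd hq
          intro p hp hpq
          obtain ⟨h12, h13⟩ := hb2 p hp hpq
          have h14 := h10 p hp h12
          rw [h13] at h14
          exact (Nat.modEq_iff_dvd).1 h14
        exact (Nat.modEq_iff_dvd).2 h11
      · rw [← h6, ← hD]
        refine exact hTD hb3 ?_ h10
        have : (y : ℝ) + R < ((u.1 + j * u.2 : ℕ) : ℝ) := lt_of_le_of_lt hX3 h9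
        exact_mod_cast this
      · intro s hs
        have hsT := hQT hs
        simp only [hsT, dif_pos]
        exact h7 ⟨s, hsT⟩

end Pool.Agent.V5helper49.NR
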