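import Mathlib

/-!
# Runs of consecutive primes along narrow progressions: preparations

Admissible subsets, residues which block all other positions, disjoint progressions.
-/

set_option autoImplicit false

namespace Pool.Agent.V5helper49.NR

open Finset Filter

/-- the progression `m, m + d, …, m + (l - 1) d` -/
def prog (l : ℕ) (u : ℕ × ℕ) : Finset ℕ := (range l).image fun j => u.1 + j * u.2

lemma mem_prog {l : ℕ} {u : ℕ × ℕ} {x : ℕ} : x ∈ prog l u ↔ ∃ j < l, u.1 + j * u.2 = x := by
  simp [prog]

lemma prog_card (l : ℕ) (u : ℕ × ℕ) : (prog l u).card ≤ l := by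
  unfold prog
  exact card_image_le.trans (by simp)

open Classical in
/-- many disjoint progressions -/
lemma greedy {l : ℕ} (hl : 1 ≤ l) (D thr : ℝ) (A : Finset ℕ)
    (hnar : ∀ B ⊆ A, thr ≤ (B.card : ℝ) → ∃ m d : ℕ, 1 ≤ d ∧ (d : ℝ) ≤ D ∧ ∀ j < l, m + j * d ∈ B) :
    ∀ N : ℕ, thr + N * l ≤ (A.card : ℝ) → ∃ F : Finset (ℕ × ℕ), F.card = N ∧
      (∀ u ∈ F, ∀ v ∈ F, u ≠ v → Disjoint (prog l u) (prog l v)) ∧
      ∀ u ∈ F, 1 ≤ u.2 ∧ (u.2 : ℝ) ≤ D ∧ ∀ j < l, u.1 + j * u.2 ∈ A := by
  intro N
  induction N with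
  | zero =>
    intro _
    exact ⟨∅, rfl, by simp, by simp⟩
  | succ N ih =>
    intro hN
    have hl0 : (0 : ℝ) ≤ l := Nat.cast_nonneg _
    obtain ⟨F, hF1, hF2, hF3⟩ := ih (by
      push_cast at hN
      nlinarith)
    obtain ⟨U, hU⟩ : ∃ U : Finset ℕ, U = F.biUnion (prog l) := ⟨_, rfl⟩
    have hUc : (U.card : ℝ) ≤ N * l := by
      have h1 : U.card ≤ F.card * l := by
        rw [hU]
        exact card_biUnion_le_card_mul F (prog l) l fun u _ => prog_card l u
      rw [hF1] at h1
      exact_mod_cast h1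
    have hB : thr ≤ ((A \ U).card : ℝ) := by
      have h1 : A.card ≤ (A \ U).card + U.card := by
        have := card_le_card_sdiff_add_card (s := A) (t := U)
        omega
      have h2 : (A.card : ℝ) ≤ (A \ U).card + U.card := by exact_mod_cast h1
      push_cast at hN
      nlinarith
    obtain ⟨m, d, hd1, hdD, hmem⟩ := hnar (A \ U) sdiff_subset hB
    have hnew : ∀ v ∈ F, Disjoint (prog l (m, d)) (prog l v) := by
      intro v hv
      rw [Finset.disjoint_left]
      intro x hx hxv
      obtain ⟨j, hj, rfl⟩ := mem_prog.1 hx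
      have h1 := hmem j hj
      rw [Finset.mem_sdiff] at h1
      apply h1.2
      rw [hU, mem_biUnion]
      exact ⟨v, hv, hxv⟩
    have hnot : (m, d) ∉ F := by
      intro h
      have h1 := hnew _ h
      rw [disjoint_self] at h1
      have h2 : m ∈ prog l (m, d) := mem_prog.2 ⟨0, by omega, by simp⟩
      rw [h1] at h2
      simp at h2
    refine ⟨insert (m, d) F, by rw [card_insert_of_notMem hnot, hF1], ?_, ?_⟩
    · intro u hu v hv huv
      rw [mem_insert] at hu hv
      rcases hu with rfl | hu
      · rcases hv with rfl | hv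
        · exact absurd rfl huv
        · exact hnew v hv
      · rcases hv with rfl | hv
        · exact (hnew u hu).symm
        · exact hF2 u hu v hv huv
    · intro u hu
      rw [mem_insert] at hu
      rcases hu with rfl | hu
      · refine ⟨hd1, hdD, fun j hj => ?_⟩
        exact (Finset.mem_sdiff.1 (hmem j hj)).1
      · exact hF3 u hu

/-- one class modulo `p` contains few elements -/
lemma few_class (p : ℕ) (hp : 0 < p) (T : Finset ℕ) : ∃ b : ℕ,
    p * (T.filter (fun s => p ∣ b + s)).card ≤ T.card := by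
  by_contra hcon
  push Not at hcon
  have h1 : ∑ b ∈ range p, (T.filter (fun s => p ∣ b + s)).card = T.card := by
    rw [← Finset.card_biUnion]
    · congr 1
      ext s
      simp only [mem_biUnion, mem_range, mem_filter]
      constructor
      · rintro ⟨b, _, hs, _⟩
        exact hs
      · intro hs
        refine ⟨(p - s % p) % p, Nat.mod_lt _ hp, hs, ?_⟩
        have h2 : s % p < p := Nat.mod_lt _ hp
        rw [Nat.dvd_iff_mod_eq_zero, Nat.add_mod, Nat.mod_mod]
        rw [← Nat.add_mod]
        have h3 : p - s % p + s = p * (s / p) + p := by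
          have := Nat.div_add_mod s p
          omega
        rw [h3, ← Nat.mul_succ, Nat.mul_mod_right]
    · intro b hb b' hb' hbb
      change Disjoint _ _
      rw [Finset.disjoint_left]
      intro s hs hs'
      apply hbb
      have h2 := (mem_filter.1 hs).2
      have h3 := (mem_filter.1 hs').2
      have hb2 := mem_range.1 (Finset.mem_coe.1 hb)
      have hb3 := mem_range.1 (Finset.mem_coe.1 hb')
      have h4 : (p : ℤ) ∣ (b : ℤ) - b' := by
        have h5 : (p : ℤ) ∣ ((b + s : ℕ) : ℤ) := Int.natCast_dvd_natCast.2 h2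
        have h6 : (p : ℤ) ∣ ((b' + s : ℕ) : ℤ) := Int.natCast_dvd_natCast.2 h3
        have h7 := dvd_sub h5 h6
        push_cast at h7
        have e : (b : ℤ) + s - (b' + s) = b - b' := by ring
        rwa [e] at h7
      have h8 := Int.eq_zero_of_abs_lt_dvd h4 (by rw [abs_lt]; omega)
      omega
  have h2 : ∑ b ∈ range p, p * (T.filter (fun s => p ∣ b + s)).card = p * T.card := by
    rw [← Finset.mul_sum, h1]
  have h3 : ∑ b ∈ range p, (T.card + 1) ≤ ∑ b ∈ range p, p * (T.filter (fun s => p ∣ b + s)).card :=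
    Finset.sum_le_sum fun b _ => hcon b
  rw [h2, Finset.sum_const, card_range, smul_eq_mul] at h3
  have h4 : p * T.card < p * (T.card + 1) := Nat.mul_lt_mul_of_pos_left (Nat.lt_succ_self _) hp
  omega

/-- classes modulo the primes `p ≤ z` which avoid at least one `z`-th of the set -/
lemma thin (S : Finset ℕ) (z : ℕ) (hz : 1 ≤ z) : ∃ (b : ℕ → ℕ) (T : Finset ℕ), T ⊆ S ∧
    S.card ≤ z * T.card ∧ ∀ p : ℕ, p.Prime → p ≤ z → ∀ s ∈ T, ¬ p ∣ b p + s := by
  induction z, hz using Nat.le_induction with
  | base =>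
    refine ⟨fun _ => 0, S, Subset.refl _, by omega, ?_⟩
    intro p hp hp1
    exact absurd hp1 (by have := hp.two_le; omega)
  | succ z hz ih =>
    obtain ⟨b, T, hTS, hc, hb⟩ := ih
    obtain ⟨b', hb'⟩ := few_class (z + 1) (by omega) T
    refine ⟨fun p => if p = z + 1 then b' else b p, T.filter (fun s => ¬ (z + 1) ∣ b' + s),
      (filter_subset _ _).trans hTS, ?_, ?_⟩
    · have h1 := Finset.card_filter_add_card_filter_not (s := T) (fun s => (z + 1) ∣ b' + s)
      -- `|T| z ≤ (z + 1) |T'|`
      have h2 : z * T.card ≤ (z + 1) * (T.filter (fun s => ¬ (z + 1) ∣ b' + s)).card := by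
        nlinarith
      exact hc.trans h2
    · intro p hp hpz s hs
      obtain ⟨hs1, hs2⟩ := mem_filter.1 hs
      by_cases hpe : p = z + 1
      · subst hpe
        simpa using hs2
      · simp only [hpe, if_false]
        exact hb p hp (by omega) s hs1

end Pool.Agent.V5helper49.NR
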