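import Pool.Agent.V5helper49.NR.Prep

/-!
# Runs of consecutive primes along narrow progressions: the residues
-/

set_option autoImplicit false

namespace Pool.Agent.V5helper49.NR

open Finset Filter

/-- the primes of the interval `[m - R, m + D + R]` are exactly the numbers `m + s`, `s ∈ Q` -/
def Exactly (R D : ℕ) (Q : Finset ℕ) (m : ℕ) : Prop :=
  ∀ p : ℕ, m ≤ p + R → p ≤ m + D + R → (p.Prime ↔ ∃ s ∈ Q, p = m + s)

lemma free (p : ℕ) (T : Finset ℕ) (h : T.card < p) : ∃ b : ℕ, ∀ s ∈ T, ¬ p ∣ b + s := by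
  obtain ⟨b, hb⟩ := few_class p (by omega) T
  refine ⟨b, fun s hs hd => ?_⟩
  have h1 : 1 ≤ (T.filter (fun s => p ∣ b + s)).card :=
    Finset.card_pos.2 ⟨s, mem_filter.2 ⟨hs, hd⟩⟩
  have h2 : p * 1 ≤ p * (T.filter (fun s => p ∣ b + s)).card := Nat.mul_le_mul_left _ h1
  omega

/-- large primes, one for every position -/
noncomputable def P (P0 z : ℕ) : ℕ := Nat.nth Nat.Prime (P0 + z)

lemma P_prime (P0 z : ℕ) : (P P0 z).Prime := Nat.prime_nth_prime _

lemma P_mono (P0 : ℕ) : StrictMono (P P0) := by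
  intro a b hab
  exact Nat.nth_strictMono Nat.infinite_setOf_prime (by omega)

lemma P_ge (P0 z : ℕ) : P0 + z ≤ P P0 z :=
  (Nat.nth_strictMono Nat.infinite_setOf_prime).le_apply

/-- the residues at one prime -/
lemma one_residue (T : Finset ℕ) (D R q a P0 : ℕ) (hTD : ∀ s ∈ T, s ≤ D) (hqa : ∀ s ∈ T, (a + s).Coprime q)
    (hP0 : q + T.card + D + 2 * R < P0) (b0 : ℕ → ℕ)
    (hb0 : ∀ p : ℕ, p.Prime → p ≤ T.card → ∀ s ∈ T, ¬ p ∣ b0 p + s) (hq : 0 < q) (p : ℕ) (hp : p.Prime) :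
    ∃ b : ℕ, (∀ s ∈ T, ¬ p ∣ b + s) ∧ (p ∣ q → b = a) ∧
      ∀ z ≤ D + 2 * R, (∀ s ∈ T, z ≠ s + R) → p = P P0 z → b + z ≡ R [MOD p] := by
  by_cases hpq : p ∣ q
  · refine ⟨a, ?_, fun _ => rfl, ?_⟩
    · intro s hs hd
      have h1 := hqa s hs
      have h2 : p ∣ 1 := by
        rw [← h1]
        exact Nat.dvd_gcd hd hpq
      exact hp.one_lt.ne' (Nat.dvd_one.1 h2)
    · intro z _ _ hz
      have h1 := P_ge P0 z
      have h2 := Nat.le_of_dvd hq hpq
      omega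
  · by_cases hpN : p ≤ T.card
    · refine ⟨b0 p, hb0 p hp hpN, fun h => absurd h hpq, ?_⟩
      intro z _ _ hz
      have h1 := P_ge P0 z
      omega
    · by_cases hz : ∃ z ≤ D + 2 * R, (∀ s ∈ T, z ≠ s + R) ∧ p = P P0 z
      · obtain ⟨z, hz1, hz2, hz3⟩ := hz
        have hPz := P_ge P0 z
        refine ⟨R + p - z, ?_, fun h => absurd h hpq, ?_⟩
        · intro s hs hd
          have h1 : (p : ℤ) ∣ ((R + p - z + s : ℕ) : ℤ) := Int.natCast_dvd_natCast.2 hd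
          have h2 : ((R + p - z + s : ℕ) : ℤ) = ((R : ℤ) + s - z) + p := by
            have : z ≤ R + p := by omega
            push_cast [Nat.cast_sub this]
            ring
          rw [h2] at h1
          have h3 : (p : ℤ) ∣ (R : ℤ) + s - z := (dvd_add_self_right).1 h1
          have h4 := hTD s hs
          have h5 := Int.eq_zero_of_abs_lt_dvd h3 (by rw [abs_lt]; omega)
          exact hz2 s hs (by omega)
        · intro z' _ _ hz'
          have h1 : z' = z := (P_mono P0).injective (hz'.symm.trans hz3)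
          subst h1
          have h2 : R + p - z' + z' = R + p := by omega
          rw [h2]
          exact Nat.add_modEq_right
      · push Not at hz
        obtain ⟨b, hb⟩ := free p T (by omega)
        refine ⟨b, hb, fun h => absurd h hpq, ?_⟩
        intro z hz1 hz2 hz3
        exact absurd hz3 (hz z hz1 hz2)

/-- the set of shifts, the bound for the primes and the residues -/
lemma residues (S : Finset ℕ) (R q a N : ℕ) (hq : 0 < q) (hqa : ∀ s ∈ S, (a + s).Coprime q)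
    (hN : 1 ≤ N) (hNS : N * N ≤ S.card) : ∃ (T : Finset ℕ) (y : ℕ) (b : ℕ → ℕ), T ⊆ S ∧ T.card = N ∧
      T ⊆ range y ∧ (∀ p : ℕ, p.Prime → p ≤ y → ∀ s ∈ T, ¬ p ∣ b p + s) ∧
      (∀ p : ℕ, p.Prime → p ∣ q → p ≤ y ∧ b p = a) ∧
      ∀ z ≤ S.sup id + 2 * R, (∀ s ∈ T, z ≠ s + R) → ∃ p : ℕ, p.Prime ∧ p ≤ y ∧ b p + z ≡ R [MOD p] := by
  obtain ⟨b0, T0, hT0, hc0, hb0⟩ := thin S N hN
  have hNT : N ≤ T0.card := by
    have h1 : N * N ≤ N * T0.card := hNS.trans hc0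
    exact Nat.le_of_mul_le_mul_left h1 (by omega)
  obtain ⟨T, hTT, hTN⟩ := exists_subset_card_eq hNT
  obtain ⟨D, hD⟩ : ∃ D, D = S.sup id := ⟨_, rfl⟩
  have hTS := hTT.trans hT0
  have hTD : ∀ s ∈ T, s ≤ D := by
    intro s hs
    rw [hD]
    exact Finset.le_sup (f := id) (hTS hs)
  obtain ⟨P0, hP0⟩ : ∃ P0, P0 = q + T.card + D + 2 * R + 1 := ⟨_, rfl⟩
  have hres := fun (p : ℕ) (hp : p.Prime) => one_residue T D R q a P0 hTD (fun s hs => hqa s (hTS hs))
    (by omega) b0 (fun p hp hpT s hs => hb0 p hp (by omega) s (hTT hs)) hq p hp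
  have hres' : ∀ p : ℕ, ∃ b : ℕ, p.Prime → (∀ s ∈ T, ¬ p ∣ b + s) ∧ (p ∣ q → b = a) ∧
      ∀ z ≤ D + 2 * R, (∀ s ∈ T, z ≠ s + R) → p = P P0 z → b + z ≡ R [MOD p] := by
    intro p
    by_cases hp : p.Prime
    · obtain ⟨b, hb⟩ := hres p hp
      exact ⟨b, fun _ => hb⟩
    · exact ⟨0, fun h => absurd h hp⟩
  choose b hb using hres'
  have hy := P_ge P0 (D + 2 * R)
  refine ⟨T, P P0 (D + 2 * R), b, hTS, hTN, ?_, fun p hp _ => (hb p hp).1, ?_, ?_⟩
  · intro s hs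
    have := hTD s hs
    rw [mem_range]
    omega
  · intro p hp hpq
    have := Nat.le_of_dvd hq hpq
    exact ⟨by omega, (hb p hp).2.1 hpq⟩
  · rw [← hD]
    intro z hz1 hz2
    refine ⟨P P0 z, P_prime _ _, (P_mono P0).monotone hz1, ?_⟩
    exact (hb _ (P_prime _ _)).2.2 z hz1 hz2 rfl

open Classical in
/-- the pattern is exact -/
lemma exact {T : Finset ℕ} {D R y : ℕ} {b : ℕ → ℕ} (hTD : ∀ s ∈ T, s ≤ D)
    (hb : ∀ z ≤ D + 2 * R, (∀ s ∈ T, z ≠ s + R) → ∃ p : ℕ, p.Prime ∧ p ≤ y ∧ b p + z ≡ R [MOD p])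
    {m : ℕ} (hm : y + R < m) (hmb : ∀ p : ℕ, p.Prime → p ≤ y → m ≡ b p [MOD p]) :
    Exactly R D (T.filter (fun s => (m + s).Prime)) m := by
  intro w hw1 hw2
  obtain ⟨z, hz⟩ : ∃ z, z + m = w + R := ⟨w + R - m, by omega⟩
  have hzD : z ≤ D + 2 * R := by omega
  constructor
  · intro hwp
    by_cases h : ∀ s ∈ T, z ≠ s + R
    · exfalso
      obtain ⟨p, hp, hpy, hpz⟩ := hb z hzD h
      have h1 : m + z ≡ R [MOD p] := ((hmb p hp hpy).add_right z).trans hpz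
      have h2 : w + R ≡ 0 + R [MOD p] := by
        rw [zero_add, ← hz, add_comm z m]
        exact h1
      have h3 : p ∣ w := (Nat.modEq_zero_iff_dvd).1 (Nat.ModEq.add_right_cancel' R h2)
      have h4 := (Nat.prime_dvd_prime_iff_eq hp hwp).1 h3
      omega
    · push Not at h
      obtain ⟨s, hs, hzs⟩ := h
      have h1 : w = m + s := by omega
      refine ⟨s, mem_filter.2 ⟨hs, ?_⟩, h1⟩
      rw [← h1]
      exact hwp
  · rintro ⟨s, hs, rfl⟩
    exact (mem_filter.1 hs).2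

end Pool.Agent.V5helper49.NR
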